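import Mathlib
import Pool.Agent.Lib.MP_fed786_co.H31Main

/-! For all `k ≥ 1` and `l ≥ 360 k^2`, every edge-coloured tournament on `l^(k-1)+1` vertices has a
monochromatic directed path with `l` arcs or a rainbow directed path with `k` arcs. -/

set_option autoImplicit false

namespace Pool.Agent.Results.MP_fed786_co.LargeL

theorem result :
    ∀ k l : ℕ, 0 < k → 360 * k ^ 2 ≤ l →
      ∀ adj : Fin (l ^ (k - 1) + 1) → Fin (l ^ (k - 1) + 1) → Prop,
        (∀ u, ¬ adj u u) →
        (∀ u v, u ≠ v → (adj u v ↔ ¬ adj v u)) →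
        ∀ c : Fin (l ^ (k - 1) + 1) → Fin (l ^ (k - 1) + 1) → ℕ,
          (∃ p : Fin (l + 1) → Fin (l ^ (k - 1) + 1),
              Function.Injective p ∧
              (∀ i : Fin l, adj (p i.castSucc) (p i.succ)) ∧
              (∀ i j : Fin l, c (p i.castSucc) (p i.succ) = c (p j.castSucc) (p j.succ))) ∨
          (∃ p : Fin (k + 1) → Fin (l ^ (k - 1) + 1),
              Function.Injective p ∧
              (∀ i : Fin k, adj (p i.castSucc) (p i.succ)) ∧
              Function.Injective (fun i : Fin k => c (p i.castSucc) (p i.succ))) :=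
  fun k l hk hl adj h1 h2 c => Pool.Agent.H31Fed.poly_l k hk l hl adj h1 h2 c

end Pool.Agent.Results.MP_fed786_co.LargeL
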