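import Pool.Agent.Lib.MP_fed786_co.Three

set_option autoImplicit false

namespace Pool.Agent.Results.MP_fed786_co.RainbowThree

open Pool.Agent.FedTour

/-- The case `k = 3` for every `l`: every edge-coloured tournament on `l ^ 2 + 1` vertices has a
monochromatic directed path with `l` arcs or a rainbow directed path with `3` arcs. -/
theorem result :
    ∀ l : ℕ, 0 < l →
      ∀ adj : Fin (l ^ 2 + 1) → Fin (l ^ 2 + 1) → Prop,
        (∀ u, ¬ adj u u) →
        (∀ u v, u ≠ v → (adj u v ↔ ¬ adj v u)) →
        ∀ c : Fin (l ^ 2 + 1) → Fin (l ^ 2 + 1) → ℕ,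
          (∃ p : Fin (l + 1) → Fin (l ^ 2 + 1),
              Function.Injective p ∧
              (∀ i : Fin l, adj (p i.castSucc) (p i.succ)) ∧
              (∀ i j : Fin l, c (p i.castSucc) (p i.succ) = c (p j.castSucc) (p j.succ))) ∨
          (∃ p : Fin (3 + 1) → Fin (l ^ 2 + 1),
              Function.Injective p ∧
              (∀ i : Fin 3, adj (p i.castSucc) (p i.succ)) ∧
              Function.Injective (fun i : Fin 3 => c (p i.castSucc) (p i.succ))) := by
  intro l hl adj hirr htour c
  by_contra hcon
  rw [not_or] at hcon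
  obtain ⟨hm, hr⟩ := hcon
  have has : ∀ u v, adj u v → ¬ adj v u := by
    intro u v h
    by_cases e : u = v
    · subst e; exact hirr u
    · exact (htour u v e).1 h
  have htot : ∀ u v, u = v ∨ adj u v ∨ adj v u := by
    intro u v
    by_cases e : u = v
    · exact Or.inl e
    · by_cases h : adj v u
      · exact Or.inr (Or.inr h)
      · exact Or.inr (Or.inl ((htour u v e).2 h))
  have hmono : ∀ (a : ℕ) (L : List (Fin (l ^ 2 + 1))), L.Nodup →
      (L.IsChain fun u v => adj u v ∧ c u v = a) → L.length ≤ l := by
    intro a L hN hC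
    by_contra hlen
    push Not at hlen
    have hstep : ∀ i : Fin l, adj (L[i.val]'(by omega)) (L[i.val + 1]'(by omega)) ∧
        c (L[i.val]'(by omega)) (L[i.val + 1]'(by omega)) = a := fun i =>
      List.isChain_iff_getElem.1 hC i.val (by omega)
    refine hm ⟨fun i => L[i.val]'(by omega), ?_, fun i => (hstep i).1, fun i j => ?_⟩
    · intro i j h
      exact Fin.ext ((List.Nodup.getElem_inj_iff hN).1 h)
    · exact (hstep i).2.trans (hstep j).2.symm
  have hR : ∀ a b d e, adj a b → adj b d → adj d e → a = e ∨
      c a b = c b d ∨ c b d = c d e ∨ c a b = c d e := by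
    intro a b d e h1 h2 h3
    by_contra hn
    push Not at hn
    obtain ⟨n0, n1, n2, n3⟩ := hn
    have ab : a ≠ b := fun h => hirr b (h ▸ h1)
    have bd : b ≠ d := fun h => hirr d (h ▸ h2)
    have de : d ≠ e := fun h => hirr e (h ▸ h3)
    have ad : a ≠ d := fun h => has _ _ h1 (h ▸ h2)
    have be : b ≠ e := fun h => has _ _ h2 (h ▸ h3)
    refine hr ⟨![a, b, d, e], ?_, ?_, ?_⟩
    · intro i j h
      fin_cases i <;> fin_cases j <;> first | rfl | exact absurd h ab | exact absurd h bd | exact absurd h de | exact absurd h ad | exact absurd h be | exact absurd h n0 | exact absurd h.symm ab | exact absurd h.symm bd | exact absurd h.symm de | exact absurd h.symm ad | exact absurd h.symm be | exact absurd h.symm n0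
    · intro i
      fin_cases i
      · exact h1
      · exact h2
      · exact h3
    · intro i j h
      fin_cases i <;> fin_cases j <;> first | rfl | exact absurd h n1 | exact absurd h n2 | exact absurd h n3 | exact absurd h.symm n1 | exact absurd h.symm n2 | exact absurd h.symm n3
  rcases Nat.lt_or_ge l 2 with h2 | h2
  · obtain rfl : l = 1 := by omega
    have h01 : (0 : Fin (1 ^ 2 + 1)) ≠ 1 := by decide
    rcases htot 0 1 with e | h | h
    · exact h01 e
    · have := hmono (c 0 1) [0, 1] (by simp) (by simpa using h)
      simp at this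
    · have := hmono (c 1 0) [1, 0] (by simp) (by simpa using h)
      simp at this
  · have := card_le_sq adj c l h2 hirr has htot hmono hR 0
    rw [Fintype.card_fin, pow_two] at this
    omega

end Pool.Agent.Results.MP_fed786_co.RainbowThree
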