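import Pool.Agent.FS.ShortRuns.Core

set_option autoImplicit false

namespace Pool.Agent.Results.MP_fed786_co.ShortRuns

open Pool.Agent.FS.ShortRuns

/-- Every edge colouring of the transitive tournament on `l ^ (k - 1) + 1` vertices has a
monochromatic path with `l` arcs, or a path from the first vertex made of `k` monochromatic runs
with pairwise distinct colours, each with one or two arcs. -/
theorem result :
    ∀ l k : ℕ, 0 < l → 0 < k →
      ∀ c : Fin (l ^ (k - 1) + 1) → Fin (l ^ (k - 1) + 1) → ℕ,
        (∃ p : Fin (l + 1) → Fin (l ^ (k - 1) + 1),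
            (∀ i : Fin l, p i.castSucc < p i.succ) ∧
            (∀ i j : Fin l, c (p i.castSucc) (p i.succ) = c (p j.castSucc) (p j.succ))) ∨
        (∃ (p : Fin (k + 1) → Fin (l ^ (k - 1) + 1)) (a : Fin k → ℕ),
            p 0 = 0 ∧ Function.Injective a ∧
            ∀ i : Fin k, p i.castSucc < p i.succ ∧
              (c (p i.castSucc) (p i.succ) = a i ∨
                ∃ m, p i.castSucc < m ∧ m < p i.succ ∧
                  c (p i.castSucc) m = a i ∧ c m (p i.succ) = a i)) := by
  intro l k hl hk c
  by_cases hm : ∀ a w, ¬ Mono c a l w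
  · right
    have h0 : Ex c 0 0 ∅ 0 :=
      ⟨fun _ => 0, fun _ => 0, rfl, rfl, fun i hi => absurd hi (by omega),
        fun i hi => absurd hi (by omega), fun i hi => absurd hi (by omega)⟩
    have hst : St c 0 0 ∅ Finset.univ := by
      refine ⟨fun _ _ _ _ _ => Finset.notMem_empty _, fun w _ => ?_⟩
      rcases (Fin.zero_le w).eq_or_lt with e | e
      · exact Or.inl (e ▸ h0)
      · exact Or.inr ⟨0, h0, e, Finset.notMem_empty _⟩
    obtain ⟨B, w, p, a, hp0, -, hs, -, hinj⟩ :=
      main hl hm (k - 1) 0 ∅ Finset.univ hst (by simp)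
    have e : 0 + (k - 1) + 1 = k := by omega
    rw [e] at hs hinj
    refine ⟨fun i => p i, fun i => a i, hp0, fun i j hij => Fin.ext (hinj i i.2 j j.2 hij),
      fun i => hs i i.2⟩
  · left
    push Not at hm
    obtain ⟨a, w, p, -, hp⟩ := hm
    exact ⟨fun i => p i, fun i => (hp i i.2).1, fun i j => (hp i i.2).2.trans (hp j j.2).2.symm⟩

end Pool.Agent.Results.MP_fed786_co.ShortRuns
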